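import Pool.Agent.Helper93.GS.Defs

set_option autoImplicit false

namespace Pool.Agent.Helper93.GS

open Pool.Agent.Helper64.ORStar

/-! ### The free algebra -/

/-- grading -/
def ST_VMUL : Prop :=
  (∀ (m n : ℕ) (a b : R), a ∈ V m → b ∈ V n → a * b ∈ V (m + n)) ∧ (1 : R) ∈ V 0 ∧
    (∀ i, X i ∈ V 1) ∧
    ∀ (m n : ℕ) (a : R), a ∈ V m → a ∈ V n → m ≠ n → a = 0

/-- `V (n+1) = V n * X 0 ⊕ V n * X 1` -/
def ST_VDEC : Prop :=
  ∀ n : ℕ, ∀ f ∈ V (n + 1), ∃ g ∈ V n, ∃ h ∈ V n, f = g * X 0 + h * X 1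

/-- dimension of `V n` -/
def ST_VDIM : Prop :=
  ∀ n : ℕ, Module.Finite ℚ (V n) ∧ Module.finrank ℚ (V n) = 2 ^ n

/-- elementary properties of `idl` -/
def ST_IDL : Prop :=
  ∀ rel : ℕ → Set R, (∀ k, rel k ⊆ (V k : Set R)) →
    (∀ n, idl rel n ≤ V n) ∧
    (∀ (m n : ℕ) (a b : R), a ∈ V m → b ∈ idl rel n → a * b ∈ idl rel (m + n)) ∧
    (∀ (m n : ℕ) (a b : R), a ∈ idl rel m → b ∈ V n → a * b ∈ idl rel (m + n)) ∧
    (∀ n, rel n ⊆ (idl rel n : Set R))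

/-- `idl rel n` depends only on `rel k`, `k ≤ n` -/
def ST_IDM : Prop :=
  ∀ (rel rel' : ℕ → Set R) (n : ℕ), (∀ k ≤ n, rel k ⊆ rel' k) → idl rel n ≤ idl rel' n

/-- codimension of `idl rel n` in `V n` -/
noncomputable def cd (rel : ℕ → Set R) (n : ℕ) : ℕ :=
  Module.finrank ℚ (V n) - Module.finrank ℚ (idl rel n)

/-- the Golod-Shafarevich inequality -/
def ST_GSI : Prop :=
  ∀ rel : ℕ → Set R, (∀ k, rel k ⊆ (V k : Set R)) → (∀ k, (rel k).Finite) → rel 0 = ∅ →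
    ∀ n : ℕ, 2 * cd rel n ≤ cd rel (n + 1) +
      ∑ k ∈ Finset.range (n + 2), (rel k).ncard * cd rel (n + 1 - k)

/-- the numerical part -/
def ST_GSN : Prop :=
  ∀ b : ℕ → ℕ, 0 < b 0 →
    (∀ n, 2 * b n ≤ b (n + 1) + ∑ k ∈ Finset.range (n + 2), (k - 12) * b (n + 1 - k)) →
    ∀ n, 0 < b n

/-- Golod-Shafarevich: with at most `k - 12` relations in degree `k` the quotient algebra is
nonzero in every degree -/
def ST_GS : Prop :=
  ∀ rel : ℕ → Set R, (∀ k, rel k ⊆ (V k : Set R)) → (∀ k, (rel k).Finite) →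
    (∀ k, (rel k).ncard ≤ k - 12) → ∀ n, ¬ V n ≤ idl rel n

/-- forcing: every task is either met or blocked at a finite level -/
def ST_FORCE : Prop :=
  ∀ T : ℕ → Set (PowerSeries R), (∀ j, ∀ f ∈ T j, Gd f) →
    ∃ rel : ℕ → Set R, (∀ k, rel k ⊆ (V k : Set R)) ∧ (∀ k, (rel k).Finite) ∧
      (∀ k, (rel k).ncard ≤ k - 12) ∧
      ∀ j, (∃ f ∈ T j, ∀ n, PowerSeries.coeff n f ∈ idl rel n) ∨
        (∀ f ∈ T j, ∃ n < 13 + j, PowerSeries.coeff n f ∉ idl rel n)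

/-- the graded quotient algebra -/
def ST_QUO : Prop :=
  ∀ rel : ℕ → Set R, (∀ k, rel k ⊆ (V k : Set R)) →
    ∃ (A : Type) (_ : Ring A) (_ : Algebra ℚ A) (φ : R →ₐ[ℚ] A),
      ∀ n, ∀ f ∈ V n, φ f = 0 ↔ f ∈ idl rel n

/-! ### The Magnus homomorphism -/

/-- closure properties of `Gd` -/
def ST_GDM : Prop :=
  Gd 1 ∧ (∀ f g, Gd f → Gd g → Gd (f * g)) ∧ (∀ f g, Gd f → Gd g → Gd (f - g)) ∧
    (∀ f, Gd f → ∀ k : ℕ, Gd (f ^ k)) ∧ (∀ w, Gd (mu X w : PowerSeries R))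

/-- naturality -/
def ST_MUN : Prop :=
  ∀ (A : Type) [Ring A] [Algebra ℚ A] (φ : R →ₐ[ℚ] A) (w : FreeGroup (Fin 2)),
    PowerSeries.map (φ : R →+* A) (mu X w : PowerSeries R)
      = (mu (fun i => φ (X i)) w : PowerSeries A)

/-- depth one -/
def ST_MUD : Prop :=
  ∀ (A : Type) [Ring A] (x : Fin 2 → A) (w : FreeGroup (Fin 2)), mu x w ∈ Dep A 1

/-- commutators add depths -/
def ST_COM : Prop :=
  ∀ (A : Type) [Ring A] (a b : ℕ) (u v : (PowerSeries A)ˣ), u ∈ Dep A a → v ∈ Dep A b →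
    u * v * u⁻¹ * v⁻¹ ∈ Dep A (a + b)

/-- iterated commutators -/
def ST_ENGD : Prop :=
  ∀ (A : Type) [Ring A] (u v : (PowerSeries A)ˣ), u ∈ Dep A 1 → v ∈ Dep A 1 →
    ∀ k : ℕ, eng u v k ∈ Dep A (k + 1)

/-- powers of `u - 1` -/
def ST_POWD : Prop :=
  ∀ (A : Type) [Ring A] (u : (PowerSeries A)ˣ), u ∈ Dep A 1 → ∀ k n : ℕ, n < k →
    PowerSeries.coeff n (((u : PowerSeries A) - 1) ^ k) = 0

/-- nilpotent quotients -/
def ST_NIL : Prop :=
  ∀ (A : Type) [Ring A] (G : Subgroup (PowerSeries A)ˣ), G ≤ Dep A 1 → ∀ N : ℕ,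
    Group.IsNilpotent (G ⧸ (Dep A N).subgroupOf G)

/-- torsion-free quotients -/
def ST_TFR : Prop :=
  ∀ (A : Type) [Ring A] [Algebra ℚ A] (u : (PowerSeries A)ˣ), u ∈ Dep A 1 →
    ∀ N k : ℕ, 0 < k → u ^ k ∈ Dep A N → u ∈ Dep A N

/-! ### Nilpotent groups -/

/-- terms of the lower central series of a finitely generated group are finitely generated
modulo the next term -/
def ST_FGL : Prop :=
  ∀ (W : Type) [Group W], Group.FG W → ∀ c : ℕ, ∃ Z : Set W, Z.Finite ∧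
    (Subgroup.lowerCentralSeries (⊤ : Subgroup W) c) =
      Subgroup.closure Z ⊔ Subgroup.lowerCentralSeries (⊤ : Subgroup W) (c + 1)

/-- the central step: `C` is the set of elements of `N` with a positive power in `P` -/
def ST_CEN : Prop :=
  ∀ (W : Type) [Group W] (P : Submonoid W) (N : Subgroup W) (Z : Set W), Z.Finite →
    (∀ z ∈ N, ∀ w : W, z * w = w * z) → N = Subgroup.closure Z →
    (∀ w : W, ∃ k : ℕ, 0 < k ∧ ∃ z ∈ N, w ^ k * z ∈ P) →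
    (∀ z ∈ N, z ∈ Subgroup.closure {x : W | x ∈ N ∧ ∃ u h : W, x = u * h * u⁻¹ * h⁻¹}) →
    ∀ z ∈ N, ∃ k : ℕ, 0 < k ∧ z ^ k ∈ P

/-- a submonoid of a finitely generated nilpotent group which contains positive powers of all
elements modulo the commutator subgroup contains positive powers of all elements -/
def ST_LN2 : Prop :=
  ∀ (W : Type) [Group W], Group.FG W → Group.IsNilpotent W → ∀ P : Submonoid W,
    (∀ w : W, ∃ k : ℕ, 0 < k ∧ ∃ d ∈ commutator W, w ^ k * d ∈ P) →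
    ∀ w : W, ∃ k : ℕ, 0 < k ∧ w ^ k ∈ P

/-- the abelian case, by Zorn -/
def ST_ZORN : Prop :=
  ∀ (A : Type) [CommGroup A] (P : Submonoid A) (w : A), (∀ k : ℕ, 0 < k → w ^ k ∉ P) →
    ∃ M : Submonoid A, P ≤ M ∧ w ∉ M ∧ ∀ x : A, x ∈ M ∨ x⁻¹ ∈ M

/-- the nilpotent case -/
def ST_LN : Prop :=
  ∀ (W : Type) [Group W], Group.FG W → Group.IsNilpotent W → ∀ P : Submonoid W,
    (∃ w : W, ∀ k : ℕ, 0 < k → w ^ k ∉ P) →
    ∃ M : Submonoid W, P ≤ M ∧ (∀ x ∈ commutator W, x ∈ M) ∧ (∀ x : W, x ∈ M ∨ x⁻¹ ∈ M) ∧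
      ∃ w : W, w ∉ M

/-- choice of signs in a torsion-free nilpotent group -/
def ST_SIGN : Prop :=
  ∀ (U : Type) [Group U], Group.IsNilpotent U → (∀ (g : U) (k : ℕ), 0 < k → g ^ k = 1 → g = 1) →
    ∀ S A : Finset U, (1 : U) ∉ Subsemigroup.closure (S : Set U) → (1 : U) ∉ A →
      ∃ Q : Cone U, (S : Set U) ⊆ Q.P ∧ ∀ a ∈ A, a ∈ Q.P ∨ a⁻¹ ∈ Q.P

/-- compactness -/
def ST_CPT : Prop :=
  ∀ (G : Type) [Group G] (T : Set G),
    (∀ S A : Finset G, (S : Set G) ⊆ T → (1 : G) ∉ A →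
      ∃ Q : Cone G, (S : Set G) ⊆ Q.P ∧ ∀ a ∈ A, a ∈ Q.P ∨ a⁻¹ ∈ Q.P) →
    ∃ Q : Cone G, Q.Total ∧ T ⊆ Q.P

/-- cones and orders -/
def ST_CORD : Prop :=
  ∀ (G : Type) [Group G], (∀ P : Cone G, ∃ Q : Cone G, Q.Total ∧ P.P ⊆ Q.P) → IsORStar G

/-- the criterion -/
def ST_OR : Prop :=
  ∀ (G : Type) [Group G] (L : ℕ → Subgroup G) [∀ n, (L n).Normal], Antitone L →
    (∀ n, Group.IsNilpotent (G ⧸ L n)) →
    (∀ (n : ℕ) (g : G) (k : ℕ), 0 < k → g ^ k ∈ L n → g ∈ L n) →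
    (∀ g : G, g ≠ 1 → ∃ n, g ∉ L n) →
    (∀ S : Finset G, (1 : G) ∉ Subsemigroup.closure (S : Set G) →
      ∃ n, ∀ p ∈ Subsemigroup.closure (S : Set G), p ∉ L n) →
    IsORStar G

/-! ### Non-solubility -/

/-- in a finitely generated Engel group a normal subgroup with cyclic quotient is finitely
generated -/
def ST_RES : Prop :=
  ∀ (G : Type) [Group G], Group.FG G → Engel G → ∀ (N : Subgroup G), N.Normal → ∀ t : G,
    (∀ g : G, ∃ a : ℤ, t ^ a * g ∈ N) → N.FG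

/-- the commutator subgroup of a finitely generated Engel group is finitely generated, and the
group is polycyclic modulo the commutator subgroup -/
def ST_RESC : Prop :=
  ∀ (G : Type) [Group G], Group.FG G → Engel G → (commutator G).FG ∧
    ∃ l : List G, ∀ g : G, ∃ y ∈ commutator G, Pcp l (g * y)

/-- a finitely generated soluble Engel group is a product of finitely many cyclic groups -/
def ST_PC : Prop :=
  ∀ (G : Type) [Group G], Group.FG G → Engel G → Group.IsSolvable G →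
    ∃ l : List G, ∀ g : G, Pcp l g

/-- the linear span is finite dimensional -/
def ST_SPAN : Prop :=
  ∀ (B : Type) [Ring B] [Algebra ℚ B] (G : Subgroup Bˣ),
    (∀ u ∈ G, ∃ k : ℕ, ((u : B) - 1) ^ k = 0) → (∃ l : List G, ∀ g : G, Pcp l g) →
    (Submodule.span ℚ {b : B | ∃ u ∈ G, b = (u : B)}).FG

/-- the linear span is infinite dimensional -/
def ST_INF : Prop :=
  ∀ (A : Type) [Ring A] [Algebra ℚ A] (φ : R →ₐ[ℚ] A), (∀ n, ∃ f ∈ V n, φ f ≠ 0) →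
    ¬ (Submodule.span ℚ {b : PowerSeries A | ∃ w : FreeGroup (Fin 2),
      b = (mu (fun i => φ (X i)) w : PowerSeries A)}).FG

/-! ### The theorem -/

def ST_MAIN : Prop :=
  ∃ (G : Type) (_ : Group G), IsORStar G ∧ (∃ a b : G, Subgroup.closure {a, b} = ⊤) ∧
    (∀ x g : G, ∃ k : ℕ, eng x g k = 1) ∧ ¬ Group.IsSolvable G

end Pool.Agent.Helper93.GS
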