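import Pool.Agent.Helper93.GS.Stmts

set_option autoImplicit false

namespace Pool.Agent.Helper93.GS

open Pool.Agent.Helper64.ORStar

theorem cord_ord {G : Type} [Group G] (Q : Cone G) (hQ : Q.Total) :
    IsRightOrder (fun a b : G => a = b ∨ b * a⁻¹ ∈ Q.P) := by
  refine ⟨⟨fun a => Or.inl rfl, ?_, ?_, ?_⟩, ?_⟩
  · rintro a b c (h | h) (h' | h')
    · exact Or.inl (h.trans h')
    · subst h; exact Or.inr h'
    · subst h'; exact Or.inr h
    · right
      have := Q.mul _ h' _ h
      simpa [mul_assoc] using this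
  · rintro a b (h | h) (h' | h')
    · exact h
    · exact h
    · exact h'.symm
    · exfalso
      have := Q.mul _ h' _ h
      simp [mul_assoc] at this
      exact Q.one this
  · rintro a b c (h | h)
    · left; rw [h]
    · right
      simpa [mul_assoc] using h
  · intro a b
    by_cases hab : a = b
    · exact Or.inl (Or.inl hab)
    · have h1 : b * a⁻¹ ≠ 1 := by
        intro h
        exact hab (mul_inv_eq_one.1 h).symm
      rcases hQ _ h1 with h | h
      · exact Or.inl (Or.inr h)
      · right; right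
        simpa using h

theorem st_CORD : ST_CORD := by
  intro G _ hG
  constructor
  · obtain ⟨Q, hQ, -⟩ := hG ⟨∅, fun a ha => absurd ha (Set.notMem_empty a),
      Set.notMem_empty _⟩
    exact ⟨_, cord_ord Q hQ⟩
  · rintro r ⟨hrefl, htr, hanti, hmul⟩
    obtain ⟨Q, hQ, hPQ⟩ := hG ⟨{g | r 1 g ∧ g ≠ 1}, by
      rintro a ⟨ha, ha1⟩ b ⟨hb, hb1⟩
      have h1 : r b (a * b) := by simpa using hmul 1 a b ha
      refine ⟨htr _ _ _ hb h1, ?_⟩
      intro hab
      rw [hab] at h1
      exact hb1 (hanti _ _ h1 hb), by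
      rintro ⟨_, h⟩; exact h rfl⟩
    refine ⟨_, cord_ord Q hQ, ?_⟩
    intro a b hab
    by_cases h : a = b
    · exact Or.inl h
    · right
      apply hPQ
      refine ⟨?_, ?_⟩
      · have := hmul a b a⁻¹ hab
        simpa using this
      · intro h1
        exact h (mul_inv_eq_one.1 h1).symm

end Pool.Agent.Helper93.GS
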