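import Pool.Agent.Helper93.GS.Stmts

set_option autoImplicit false

namespace Pool.Agent.Helper93.GS

open Pool.Agent.Helper64.ORStar

theorem st_CPT : ST_CPT := by
  classical
  intro G _ T h
  have h1 : ∀ B : Finset G, ∃ Q : Cone G, (∀ g ∈ B, g ∈ T → g ∈ Q.P) ∧
      ∀ a ∈ B, a ≠ 1 → a ∈ Q.P ∨ a⁻¹ ∈ Q.P := by
    intro B
    obtain ⟨Q, hQ1, hQ2⟩ := h (B.filter (fun g => g ∈ T)) (B.erase 1)
      (by intro g hg; simp only [Finset.coe_filter, Set.mem_ofPred_eq] at hg; exact hg.2)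
      (Finset.notMem_erase _ _)
    refine ⟨Q, fun g hg hgT => hQ1 (by simp [hg, hgT]), fun a ha ha1 => hQ2 a ?_⟩
    exact Finset.mem_erase.2 ⟨ha1, ha⟩
  choose Q hQ1 hQ2 using h1
  let F : Ultrafilter (Finset G) := Ultrafilter.of Filter.atTop
  have hF : (F : Filter (Finset G)) ≤ Filter.atTop := Ultrafilter.of_le _
  have hmem : ∀ g : G, ∀ᶠ B in (F : Filter (Finset G)), g ∈ B := by
    intro g
    apply hF
    filter_upwards [Filter.eventually_ge_atTop ({g} : Finset G)] with B hB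
    exact hB (Finset.mem_singleton_self g)
  refine ⟨⟨{g | ∀ᶠ B in (F : Filter (Finset G)), g ∈ (Q B).P}, ?_, ?_⟩, ?_, ?_⟩
  · intro a ha b hb
    filter_upwards [ha, hb] with B h1 h2
    exact (Q B).mul _ h1 _ h2
  · intro h1
    obtain ⟨B, hB⟩ := h1.exists
    exact (Q B).one hB
  · intro g hg
    have : ∀ᶠ B in (F : Filter (Finset G)), g ∈ (Q B).P ∨ g⁻¹ ∈ (Q B).P := by
      filter_upwards [hmem g] with B hB
      exact hQ2 B g hB hg
    exact Ultrafilter.eventually_or.1 this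
  · intro g hg
    change ∀ᶠ B in (F : Filter (Finset G)), g ∈ (Q B).P
    filter_upwards [hmem g] with B hB
    exact hQ1 B g hB hg

end Pool.Agent.Helper93.GS
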