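import Mathlib
import Pool.Agent.Helper64.ORStar.Defs

set_option autoImplicit false

/-!
Definitions for the construction of a finitely generated non-soluble group with the
right-order extension property, by the method of Golod and Shafarevich.
-/

namespace Pool.Agent.Helper93.GS

open Pool.Agent.Helper64.ORStar

/-- The free associative algebra on two generators over `ℚ`. -/
abbrev R : Type := MonoidAlgebra ℚ (FreeMonoid (Fin 2))

/-- Its generators. -/
noncomputable def X (i : Fin 2) : R := MonoidAlgebra.single (FreeMonoid.of i) (1 : ℚ)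

/-- Homogeneous elements of degree `n`. -/
noncomputable def V (n : ℕ) : Submodule ℚ R where
  carrier := {f | ∀ w, f.coeff w ≠ 0 → w.length = n}
  add_mem' := by
    intro a b ha hb w hw
    by_contra hne
    have h1 : a.coeff w = 0 := by
      by_contra h; exact hne (ha w h)
    have h2 : b.coeff w = 0 := by
      by_contra h; exact hne (hb w h)
    apply hw
    rw [MonoidAlgebra.coeff_add]
    simp [h1, h2]
  zero_mem' := by
    intro w hw
    exact absurd (by simp) hw
  smul_mem' := by
    intro c a ha w hw
    apply ha w
    intro h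
    apply hw
    rw [MonoidAlgebra.coeff_smul]
    simp [h]

/-- The degree `n` part of the two sided ideal generated by `rel`, where `rel k` is a set of
homogeneous elements of degree `k`. -/
noncomputable def idl (rel : ℕ → Set R) (n : ℕ) : Submodule ℚ R :=
  Submodule.span ℚ {x | ∃ i k j : ℕ, i + k + j = n ∧ ∃ a ∈ V i, ∃ f ∈ rel k, ∃ b ∈ V j,
    x = a * f * b}

/-- The unit `1 + a t` of the power series ring over a (noncommutative) ring. -/
noncomputable def un {A : Type} [Ring A] (a : A) : (PowerSeries A)ˣ where
  val := 1 + PowerSeries.monomial 1 a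
  inv := PowerSeries.mk fun n => (-a) ^ n
  val_inv := by
    ext n
    rw [add_mul, one_mul, map_add, PowerSeries.coeff_mk, PowerSeries.coeff_mul]
    rcases n with _ | n
    · simp [← PowerSeries.coeff_zero_eq_constantCoeff_apply, PowerSeries.coeff_monomial]
    · rw [Finset.sum_eq_single (1, n)]
      · simp [PowerSeries.coeff_one, pow_succ']
      · rintro ⟨i, j⟩ hij hne
        have : i ≠ 1 := by
          rintro rfl
          apply hne
          have hij := Finset.HasAntidiagonal.mem_antidiagonal.1 hij
          simp; omega
        simp [PowerSeries.coeff_monomial, this]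
      · intro h
        exact absurd (by simp [add_comm]) h
  inv_val := by
    ext n
    rw [mul_add, mul_one, map_add, PowerSeries.coeff_mk, PowerSeries.coeff_mul]
    rcases n with _ | n
    · simp [← PowerSeries.coeff_zero_eq_constantCoeff_apply, PowerSeries.coeff_monomial]
    · rw [Finset.sum_eq_single (n, 1)]
      · simp [PowerSeries.coeff_one, pow_succ]
      · rintro ⟨i, j⟩ hij hne
        have : j ≠ 1 := by
          rintro rfl
          apply hne
          have hij := Finset.HasAntidiagonal.mem_antidiagonal.1 hij
          simp; omega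
        simp [PowerSeries.coeff_monomial, this]
      · intro h
        exact absurd (by simp) h

/-- The Magnus homomorphism: the `i`-th generator goes to `1 + x_i t`. -/
noncomputable def mu {A : Type} [Ring A] (x : Fin 2 → A) :
    FreeGroup (Fin 2) →* (PowerSeries A)ˣ :=
  FreeGroup.lift fun i => un (x i)

/-- Power series whose `n`-th coefficient is homogeneous of degree `n`. -/
def Gd (f : PowerSeries R) : Prop := ∀ n, PowerSeries.coeff n f ∈ V n

/-- The subgroup of units of depth at least `N`: the coefficients of `u - 1` below `N` vanish. -/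
def Dep (A : Type) [Ring A] (N : ℕ) : Subgroup (PowerSeries A)ˣ where
  carrier := {u | ∀ n < N, PowerSeries.coeff n ((u : PowerSeries A) - 1) = 0}
  mul_mem' := by
    intro u v hu hv n hn
    have e : ((u * v : (PowerSeries A)ˣ) : PowerSeries A) - 1
        = (u : PowerSeries A) * ((v : PowerSeries A) - 1) + ((u : PowerSeries A) - 1) := by
      rw [Units.val_mul, mul_sub, mul_one]; abel
    rw [e, map_add, hu n hn, add_zero, PowerSeries.coeff_mul]
    refine Finset.sum_eq_zero ?_
    rintro ⟨i, j⟩ hij
    have hij := Finset.HasAntidiagonal.mem_antidiagonal.1 hij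
    rw [hv j (by omega), mul_zero]
  one_mem' := by
    intro n _
    simp
  inv_mem' := by
    intro u hu n hn
    have e : ((u⁻¹ : (PowerSeries A)ˣ) : PowerSeries A) - 1
        = -(((u⁻¹ : (PowerSeries A)ˣ) : PowerSeries A) * ((u : PowerSeries A) - 1)) := by
      rw [mul_sub, mul_one, Units.inv_mul]; abel
    rw [e, map_neg, PowerSeries.coeff_mul, neg_eq_zero]
    refine Finset.sum_eq_zero ?_
    rintro ⟨i, j⟩ hij
    have hij := Finset.HasAntidiagonal.mem_antidiagonal.1 hij
    rw [hu j (by omega), mul_zero]

theorem mem_Dep {A : Type} [Ring A] {N : ℕ} {u : (PowerSeries A)ˣ} :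
    u ∈ Dep A N ↔ ∀ n < N, PowerSeries.coeff n ((u : PowerSeries A) - 1) = 0 := Iff.rfl

instance Dep_normal (A : Type) [Ring A] (N : ℕ) : (Dep A N).Normal where
  conj_mem := by
    intro u hu g n hn
    have e : ((g * u * g⁻¹ : (PowerSeries A)ˣ) : PowerSeries A) - 1
        = (g : PowerSeries A) * ((u : PowerSeries A) - 1) * ((g⁻¹ : (PowerSeries A)ˣ) : PowerSeries A) := by
      rw [Units.val_mul, Units.val_mul, mul_sub, sub_mul, mul_one, Units.mul_inv]
    rw [e, PowerSeries.coeff_mul]
    refine Finset.sum_eq_zero ?_
    rintro ⟨i, j⟩ hij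
    have hij := Finset.HasAntidiagonal.mem_antidiagonal.1 hij
    have : PowerSeries.coeff i ((g : PowerSeries A) * ((u : PowerSeries A) - 1)) = 0 := by
      rw [PowerSeries.coeff_mul]
      refine Finset.sum_eq_zero ?_
      rintro ⟨k, l⟩ hkl
      have hkl := Finset.HasAntidiagonal.mem_antidiagonal.1 hkl
      rw [hu l (by omega), mul_zero]
    rw [this, zero_mul]

/-- Iterated commutators `[x, g, ..., g]`. -/
def eng {G : Type} [Group G] (x g : G) : ℕ → G
  | 0 => x
  | k + 1 => eng x g k * g * (eng x g k)⁻¹ * g⁻¹

/-- Engel groups. -/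
def Engel (G : Type) [Group G] : Prop := ∀ x g : G, ∃ k : ℕ, eng x g k = 1

/-- `g` is a product `x_1 ^ a_1 * ... * x_h ^ a_h` for the list `[x_1, ..., x_h]`. -/
def Pcp {G : Type} [Group G] : List G → G → Prop
  | [], g => g = 1
  | x :: l, g => ∃ (a : ℤ) (y : G), Pcp l y ∧ g = x ^ a * y

end Pool.Agent.Helper93.GS
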