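import Pool.Agent.Helper93.GS.Stmts

set_option autoImplicit false

namespace Pool.Agent.Helper93.GS

open Pool.Agent.Helper64.ORStar

abbrev FG2 : Type := FreeGroup (Fin 2)

/-- the index type of the tasks -/
abbrev Task : Type := Finset FG2 ⊕ (FG2 ⊕ (FG2 × FG2))

noncomputable def Tset : Task → Set (PowerSeries R)
  | Sum.inl S => {f | ∃ p ∈ Subsemigroup.closure (S : Set FG2), f = (mu X p : PowerSeries R) - 1}
  | Sum.inr (Sum.inl w) => {f | ∃ k : ℕ, f = ((mu X w : PowerSeries R) - 1) ^ k}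
  | Sum.inr (Sum.inr xg) => {f | ∃ k : ℕ, f = (mu X (eng xg.1 xg.2 k) : PowerSeries R) - 1}

theorem Tset_gd (hGDM : ST_GDM) (t : Task) : ∀ f ∈ Tset t, Gd f := by
  obtain ⟨h1, -, hsub, hpow, hmu⟩ := hGDM
  rcases t with S | w | ⟨x, g⟩
  · rintro f ⟨p, -, rfl⟩
    exact hsub _ _ (hmu p) h1
  · rintro f ⟨k, rfl⟩
    exact hpow _ (hsub _ _ (hmu w) h1) k
  · rintro f ⟨k, rfl⟩
    exact hsub _ _ (hmu _) h1

theorem map_eng {G H : Type} [Group G] [Group H] (f : G →* H) (x g : G) (k : ℕ) :
    f (eng x g k) = eng (f x) (f g) k := by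
  induction k with
  | zero => rfl
  | succ k ih => simp only [eng, map_mul, map_inv, ih]

theorem countable_task : Countable Task := by
  have h1 : Countable FG2 := by
    unfold FG2 FreeGroup
    infer_instance
  infer_instance

theorem st_MAIN (hGS : ST_GS) (hFORCE : ST_FORCE) (hQUO : ST_QUO) (hGDM : ST_GDM)
    (hMUN : ST_MUN) (hMUD : ST_MUD) (hENGD : ST_ENGD) (hPOWD : ST_POWD) (hNIL : ST_NIL)
    (hTFR : ST_TFR) (hOR : ST_OR) (hPC : ST_PC) (hSPAN : ST_SPAN) (hINF : ST_INF) :
    ST_MAIN := by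
  classical
  have := countable_task
  obtain ⟨e, he⟩ := exists_surjective_nat Task
  obtain ⟨rel, hrel, hfin, hcard, hT⟩ := hFORCE (fun j => Tset (e j))
    (fun j => Tset_gd hGDM (e j))
  have hne := hGS rel hrel hfin hcard
  obtain ⟨A, _, _, φ, hφ⟩ := hQUO rel hrel
  set x : Fin 2 → A := fun i => φ (X i) with hx
  have hmun : ∀ w : FG2, PowerSeries.map (φ : R →+* A) (mu X w : PowerSeries R)
      = (mu x w : PowerSeries A) := fun w => hMUN A φ w
  -- coefficients
  have hco : ∀ f : PowerSeries R, Gd f → ∀ n, (PowerSeries.coeff n f ∈ idl rel n ↔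
      PowerSeries.coeff n (PowerSeries.map (φ : R →+* A) f) = 0) := by
    intro f hf n
    rw [PowerSeries.coeff_map]
    exact (hφ n _ (hf n)).symm
  have hgd := fun t => Tset_gd hGDM t
  -- the three kinds of tasks
  have hTk : ∀ t : Task, (∃ f ∈ Tset t, PowerSeries.map (φ : R →+* A) f = 0) ∨
      ∃ N, ∀ f ∈ Tset t, ∃ n < N, PowerSeries.coeff n (PowerSeries.map (φ : R →+* A) f) ≠ 0 := by
    intro t
    obtain ⟨j, rfl⟩ := he t
    rcases hT j with ⟨f, hf, h⟩ | h
    · left
      refine ⟨f, hf, ?_⟩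
      ext n
      rw [map_zero]
      exact (hco f (hgd _ f hf) n).1 (h n)
    · right
      refine ⟨13 + j, fun f hf => ?_⟩
      obtain ⟨n, hn, h'⟩ := h f hf
      exact ⟨n, hn, fun h0 => h' ((hco f (hgd _ f hf) n).2 h0)⟩
  have hsub1 : ∀ w : FG2, PowerSeries.map (φ : R →+* A) ((mu X w : PowerSeries R) - 1)
      = (mu x w : PowerSeries A) - 1 := by
    intro w
    rw [map_sub, hmun, map_one]
  have hD : ∀ w : FG2, mu x w ∈ Dep A 1 := fun w => hMUD A x w
  have hA : ∀ S : Finset FG2, (∃ p ∈ Subsemigroup.closure (S : Set FG2), mu x p = 1) ∨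
      ∃ N, ∀ p ∈ Subsemigroup.closure (S : Set FG2), mu x p ∉ Dep A N := by
    intro S
    rcases hTk (Sum.inl S) with ⟨f, ⟨p, hp, rfl⟩, h⟩ | ⟨N, h⟩
    · left
      refine ⟨p, hp, ?_⟩
      rw [hsub1] at h
      ext1
      rw [Units.val_one]
      exact sub_eq_zero.1 h
    · right
      refine ⟨N, fun p hp hpN => ?_⟩
      obtain ⟨n, hn, h'⟩ := h _ ⟨p, hp, rfl⟩
      rw [hsub1] at h'
      exact h' (hpN n hn)
  have hB : ∀ w : FG2, ∃ k : ℕ, ((mu x w : PowerSeries A) - 1) ^ k = 0 := by
    intro w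
    rcases hTk (Sum.inr (Sum.inl w)) with ⟨f, ⟨k, rfl⟩, h⟩ | ⟨N, h⟩
    · refine ⟨k, ?_⟩
      rw [map_pow, hsub1] at h
      exact h
    · exfalso
      obtain ⟨n, hn, h'⟩ := h _ ⟨N, rfl⟩
      rw [map_pow, hsub1] at h'
      exact h' (hPOWD A _ (hD w) N n hn)
  have hC : ∀ a b : FG2, ∃ k : ℕ, mu x (eng a b k) = 1 := by
    intro a b
    rcases hTk (Sum.inr (Sum.inr (a, b))) with ⟨f, ⟨k, rfl⟩, h⟩ | ⟨N, h⟩
    · refine ⟨k, ?_⟩
      rw [hsub1] at h
      ext1
      rw [Units.val_one]
      exact sub_eq_zero.1 h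
    · exfalso
      obtain ⟨n, hn, h'⟩ := h _ ⟨N, rfl⟩
      rw [hsub1] at h'
      have := hENGD A _ _ (hD a) (hD b) N
      rw [← map_eng] at this
      exact h' (this n (by omega))
  -- the group
  let G : Subgroup (PowerSeries A)ˣ := (mu x).range
  have hG1 : G ≤ Dep A 1 := by
    rintro _ ⟨w, rfl⟩
    exact hD w
  let π : FG2 →* G := (mu x).rangeRestrict
  have hπ : Function.Surjective π := (mu x).rangeRestrict_surjective
  have hπv : ∀ w, (π w : (PowerSeries A)ˣ) = mu x w := fun w => rfl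
  have hEng : ∀ a b : G, ∃ k : ℕ, eng a b k = 1 := by
    intro a b
    obtain ⟨u, rfl⟩ := hπ a
    obtain ⟨v, rfl⟩ := hπ b
    obtain ⟨k, hk⟩ := hC u v
    refine ⟨k, ?_⟩
    rw [← map_eng]
    apply Subtype.ext
    rw [hπv, hk]
    rfl
  have hgen : Subgroup.closure ({π (FreeGroup.of 0), π (FreeGroup.of 1)} : Set G) = ⊤ := by
    have h1 : (Subgroup.closure (Set.range (FreeGroup.of : Fin 2 → FG2))) = ⊤ :=
      FreeGroup.closure_range_of _
    have h2 := congrArg (Subgroup.map π) h1
    rw [MonoidHom.map_closure, ← Set.range_comp, ← MonoidHom.range_eq_map,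
      MonoidHom.range_eq_top.2 hπ] at h2
    rw [← h2]
    apply congrArg
    ext g
    constructor
    · rintro (rfl | rfl)
      · exact ⟨0, rfl⟩
      · exact ⟨1, rfl⟩
    · rintro ⟨i, rfl⟩
      fin_cases i
      · exact Or.inl rfl
      · exact Or.inr rfl
  have hfg : Group.FG G := by
    refine Group.fg_iff.2 ⟨_, hgen, ?_⟩
    exact (Set.finite_singleton _).insert _
  refine ⟨G, inferInstance, ?_, ⟨_, _, hgen⟩, hEng, ?_⟩
  · -- (OR)*
    refine hOR G (fun n => (Dep A n).subgroupOf G) ?_ (hNIL A G hG1) ?_ ?_ ?_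
    · intro m n hmn g hg
      rw [Subgroup.mem_subgroupOf] at hg ⊢
      intro i hi
      exact hg i (by omega)
    · intro n g k hk hg
      rw [Subgroup.mem_subgroupOf] at hg ⊢
      exact hTFR A _ (hG1 g.2) n k hk (by simpa using hg)
    · intro g hg
      by_contra hcon
      push Not at hcon
      apply hg
      apply Subtype.ext
      ext1
      rw [OneMemClass.coe_one, Units.val_one]
      apply sub_eq_zero.1
      ext n
      rw [map_zero]
      exact (Subgroup.mem_subgroupOf.1 (hcon (n + 1))) n (by omega)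
    · intro S hS
      -- lift S
      choose s hs using hπ
      have hSim : (S : Set G) = π '' ((S.image s : Finset FG2) : Set FG2) := by
        ext g
        constructor
        · intro hg
          exact ⟨s g, by simpa using ⟨g, g.2, hg, rfl⟩, hs g⟩
        · rintro ⟨w, hw, rfl⟩
          rw [Finset.coe_image] at hw
          obtain ⟨g, hg, rfl⟩ := hw
          rw [hs]
          exact hg
      have hcl : (Subsemigroup.closure (S : Set G) : Set G)
          = π '' (Subsemigroup.closure ((S.image s : Finset FG2) : Set FG2) : Set FG2) := by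
        have := MulHom.map_mclosure (π : FG2 →ₙ* G) ((S.image s : Finset FG2) : Set FG2)
        rw [hSim]
        exact congrArg (fun H : Subsemigroup G => (H : Set G)) this.symm
      rcases hA (S.image s) with ⟨p, hp, h1⟩ | ⟨N, hN⟩
      · exfalso
        apply hS
        have : π p ∈ (Subsemigroup.closure (S : Set G) : Set G) := by
          rw [hcl]; exact ⟨p, hp, rfl⟩
        have h2 : π p = 1 := by
          apply Subtype.ext
          rw [hπv, h1]; rfl
        rw [h2] at this
        exact this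
      · refine ⟨N, fun p hp hpN => ?_⟩
        have : p ∈ (Subsemigroup.closure (S : Set G) : Set G) := hp
        rw [hcl] at this
        obtain ⟨w, hw, rfl⟩ := this
        exact hN w hw (Subgroup.mem_subgroupOf.1 hpN)
  · intro hsol
    obtain ⟨l, hl⟩ := hPC G hfg hEng hsol
    have h1 := hSPAN (PowerSeries A) G (by
      rintro _ ⟨w, rfl⟩
      exact hB w) ⟨l, hl⟩
    apply hINF A φ (by
      intro n
      by_contra hcon
      push Not at hcon
      exact hne n (fun f hf => (hφ n f hf).1 (hcon f hf)))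
    have e : {b : PowerSeries A | ∃ u ∈ G, b = (u : PowerSeries A)}
        = {b : PowerSeries A | ∃ w : FreeGroup (Fin 2),
          b = (mu (fun i => φ (X i)) w : PowerSeries A)} := by
      ext b
      constructor
      · rintro ⟨_, ⟨w, rfl⟩, rfl⟩
        exact ⟨w, rfl⟩
      · rintro ⟨w, rfl⟩
        exact ⟨_, ⟨w, rfl⟩, rfl⟩
    rw [← e]
    exact h1

end Pool.Agent.Helper93.GS
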