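import Pool.Agent.Helper93.GS.Stmts

set_option autoImplicit false

namespace Pool.Agent.Helper93.GS

open Pool.Agent.Helper64.ORStar

theorem st_GDM (hV : ST_VMUL) : ST_GDM := by
  obtain ⟨hmul, hone, hX, -⟩ := hV
  have h1 : Gd 1 := by
    intro n
    rw [PowerSeries.coeff_one]
    split_ifs with h
    · subst h; exact hone
    · exact Submodule.zero_mem _
  have hm : ∀ f g, Gd f → Gd g → Gd (f * g) := by
    intro f g hf hg n
    rw [PowerSeries.coeff_mul]
    apply Submodule.sum_mem
    rintro ⟨i, j⟩ hij
    have hij := Finset.HasAntidiagonal.mem_antidiagonal.1 hij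
    simp only at hij ⊢
    rw [← hij]
    exact hmul _ _ _ _ (hf i) (hg j)
  have ha : ∀ f g, Gd f → Gd g → Gd (f + g) := by
    intro f g hf hg n
    rw [map_add]
    exact Submodule.add_mem _ (hf n) (hg n)
  have hun : ∀ i, Gd (un (X i) : PowerSeries R) := by
    intro i
    apply ha _ _ h1
    intro n
    rw [PowerSeries.coeff_monomial]
    split_ifs with h
    · subst h; exact hX i
    · exact Submodule.zero_mem _
  have hui : ∀ i, Gd (((un (X i))⁻¹ : (PowerSeries R)ˣ) : PowerSeries R) := by
    intro i n
    change PowerSeries.coeff n (PowerSeries.mk fun n => (-(X i)) ^ n) ∈ V n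
    rw [PowerSeries.coeff_mk]
    induction n with
    | zero => rw [pow_zero]; exact hone
    | succ n ih =>
      rw [pow_succ]
      exact hmul _ _ _ _ ih (Submodule.neg_mem _ (hX i))
  refine ⟨h1, hm, ?_, ?_, ?_⟩
  · intro f g hf hg n
    rw [map_sub]
    exact Submodule.sub_mem _ (hf n) (hg n)
  · intro f hf k
    induction k with
    | zero => rw [pow_zero]; exact h1
    | succ k ih => rw [pow_succ]; exact hm _ _ ih hf
  · intro w
    induction w using FreeGroup.induction_on with
    | C1 => rw [map_one, Units.val_one]; exact h1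
    | of i =>
      unfold mu
      change Gd (((FreeGroup.lift fun i => un (X i)) (FreeGroup.of i) : (PowerSeries R)ˣ) : PowerSeries R)
      rw [FreeGroup.lift_apply_of]
      exact hun i
    | inv_of i _ =>
      rw [map_inv]
      unfold mu
      change Gd ((((FreeGroup.lift fun i => un (X i)) (FreeGroup.of i))⁻¹ : (PowerSeries R)ˣ) : PowerSeries R)
      rw [FreeGroup.lift_apply_of]
      exact hui i
    | mul x y hx hy => rw [map_mul, Units.val_mul]; exact hm _ _ hx hy

end Pool.Agent.Helper93.GS
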