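import Pool.Agent.Helper93.GS.Stmts

set_option autoImplicit false

namespace Pool.Agent.Helper93.GS

open Pool.Agent.Helper64.ORStar

theorem st_GS (hVD : ST_VDIM) (hIDL : ST_IDL) (hGSI : ST_GSI) (hGSN : ST_GSN) : ST_GS := by
  intro rel hrel hfin hcard n hle
  have h0 : rel 0 = ∅ := by
    have := hcard 0
    have h1 : (rel 0).ncard = 0 := by omega
    exact (Set.ncard_eq_zero (hfin 0)).1 h1
  have hpos := hGSN (cd rel) (by
    have h1 : idl rel 0 = ⊥ := by
      unfold idl
      rw [Submodule.span_eq_bot]
      rintro x ⟨i, k, j, hn, a, ha, f, hf, b, hb, rfl⟩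
      have : k = 0 := by omega
      subst this
      rw [h0] at hf
      exact absurd hf (Set.notMem_empty f)
    unfold cd
    rw [h1, finrank_bot, (hVD 0).2]
    norm_num) (by
    intro n
    refine (hGSI rel hrel hfin h0 n).trans ?_
    apply Nat.add_le_add_left
    apply Finset.sum_le_sum
    intro k _
    exact Nat.mul_le_mul_right _ (hcard k)) n
  have h2 : idl rel n = V n := le_antisymm ((hIDL rel hrel).1 n) hle
  unfold cd at hpos
  rw [h2] at hpos
  omega

end Pool.Agent.Helper93.GS
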