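import Pool.Agent.Helper93.GS.Stmts

set_option autoImplicit false

namespace Pool.Agent.Helper93.GS

open Pool.Agent.Helper64.ORStar

theorem idl_left (hV : ST_VMUL) (rel : ℕ → Set R) (m n : ℕ) (a b : R) (ha : a ∈ V m)
    (hb : b ∈ idl rel n) : a * b ∈ idl rel (m + n) := by
  unfold idl at hb
  induction hb using Submodule.span_induction with
  | mem x hx =>
    obtain ⟨i, k, j, hn, c, hc, f, hf, d, hd, rfl⟩ := hx
    apply Submodule.subset_span
    refine ⟨m + i, k, j, by omega, a * c, hV.1 _ _ _ _ ha hc, f, hf, d, hd, ?_⟩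
    rw [mul_assoc a c f, mul_assoc a (c * f) d]
  | zero => rw [mul_zero]; exact Submodule.zero_mem _
  | add x y _ _ hx hy => rw [mul_add]; exact Submodule.add_mem _ hx hy
  | smul r x _ hx => rw [mul_smul_comm]; exact Submodule.smul_mem _ r hx

theorem idl_right (hV : ST_VMUL) (rel : ℕ → Set R) (m n : ℕ) (a b : R) (ha : a ∈ idl rel m)
    (hb : b ∈ V n) : a * b ∈ idl rel (m + n) := by
  unfold idl at ha
  induction ha using Submodule.span_induction with
  | mem x hx =>
    obtain ⟨i, k, j, hn, c, hc, f, hf, d, hd, rfl⟩ := hx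
    apply Submodule.subset_span
    refine ⟨i, k, j + n, by omega, c, hc, f, hf, d * b, hV.1 _ _ _ _ hd hb, ?_⟩
    exact mul_assoc _ _ _
  | zero => rw [zero_mul]; exact Submodule.zero_mem _
  | add x y _ _ hx hy => rw [add_mul]; exact Submodule.add_mem _ hx hy
  | smul r x _ hx => rw [smul_mul_assoc]; exact Submodule.smul_mem _ r hx

theorem idl_le (hV : ST_VMUL) (rel : ℕ → Set R) (hrel : ∀ k, rel k ⊆ (V k : Set R)) (n : ℕ) :
    idl rel n ≤ V n := by
  apply Submodule.span_le.2
  rintro x ⟨i, k, j, hn, a, ha, f, hf, b, hb, rfl⟩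
  rw [← hn]
  exact hV.1 _ _ _ _ (hV.1 _ _ _ _ ha (hrel k hf)) hb

theorem idl_rel (hV : ST_VMUL) (rel : ℕ → Set R) (n : ℕ) (f : R) (hf : f ∈ rel n) :
    f ∈ idl rel n := by
  apply Submodule.subset_span
  have e : f = 1 * f * 1 := by rw [mul_one, one_mul]
  exact ⟨0, n, 0, by omega, 1, hV.2.1, f, hf, 1, hV.2.1, e⟩

theorem st_IDL (hV : ST_VMUL) : ST_IDL := by
  intro rel hrel
  exact ⟨fun n => idl_le hV rel hrel n, fun m n a b ha hb => idl_left hV rel m n a b ha hb,
    fun m n a b ha hb => idl_right hV rel m n a b ha hb, fun n f hf => idl_rel hV rel n f hf⟩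

end Pool.Agent.Helper93.GS
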