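import Pool.Agent.Helper93.GS.Stmts

set_option autoImplicit false

namespace Pool.Agent.Helper93.GS

open Pool.Agent.Helper64.ORStar

theorem st_LN (hLN2 : ST_LN2) (hZORN : ST_ZORN) : ST_LN := by
  rintro W _ hfg hnil P ⟨w₀, hw₀⟩
  have h1 : ∃ w : W, ∀ k : ℕ, 0 < k → ∀ d ∈ commutator W, w ^ k * d ∉ P := by
    by_contra hcon
    push Not at hcon
    obtain ⟨k, hk, h⟩ := hLN2 W hfg hnil P (fun w => by
      obtain ⟨k, hk, d, hd, h⟩ := hcon w
      exact ⟨k, hk, d, hd, h⟩) w₀
    exact hw₀ k hk h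
  obtain ⟨w, hw⟩ := h1
  let q : W →* Abelianization W := Abelianization.of
  have hker : ∀ x : W, q x = 1 ↔ x ∈ commutator W := by
    intro x
    rw [← MonoidHom.mem_ker, Abelianization.ker_of]
  obtain ⟨M, hPM, hwM, hM⟩ := hZORN (Abelianization W) (P.map q) (q w) (by
    intro k hk hmem
    obtain ⟨p, hp, h⟩ := Submonoid.mem_map.1 hmem
    have h2 : (w ^ k)⁻¹ * p ∈ commutator W := by
      rw [← hker, map_mul, map_inv, map_pow, h, inv_mul_cancel]
    apply hw k hk _ h2
    rwa [mul_inv_cancel_left])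
  refine ⟨M.comap q, ?_, ?_, ?_, w, hwM⟩
  · intro p hp
    exact hPM (Submonoid.mem_map_of_mem q hp)
  · intro x hx
    change q x ∈ M
    rw [(hker x).2 hx]
    exact M.one_mem
  · intro x
    rcases hM (q x) with h | h
    · exact Or.inl h
    · right
      change q x⁻¹ ∈ M
      rwa [map_inv]

end Pool.Agent.Helper93.GS
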