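import Pool.Agent.Helper93.GS.Stmts

set_option autoImplicit false

namespace Pool.Agent.Helper93.GS

open Pool.Agent.Helper64.ORStar

theorem st_MUN : ST_MUN := by
  intro A _ _ φ w
  have h : (Units.map (PowerSeries.map (φ : R →+* A) : PowerSeries R →* PowerSeries A)).comp
      (mu X) = mu (fun i => φ (X i)) := by
    apply FreeGroup.ext_hom
    intro i
    ext1
    rw [MonoidHom.comp_apply, Units.coe_map]
    unfold mu
    rw [FreeGroup.lift_apply_of, FreeGroup.lift_apply_of]
    change PowerSeries.map (φ : R →+* A) (1 + PowerSeries.monomial 1 (X i))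
      = 1 + PowerSeries.monomial 1 (φ (X i))
    rw [map_add, map_one]
    congr 1
    ext n
    rw [PowerSeries.coeff_map, PowerSeries.coeff_monomial, PowerSeries.coeff_monomial]
    split_ifs with hn
    · rfl
    · exact map_zero _
  have h2 := congrArg (fun f => ((f w : (PowerSeries A)ˣ) : PowerSeries A)) h
  exact h2

end Pool.Agent.Helper93.GS
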