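import Pool.Agent.Helper93.GS.Stmts

set_option autoImplicit false

namespace Pool.Agent.Helper93.GS

open Pool.Agent.Helper64.ORStar

theorem st_ENGD (hCOM : ST_COM) : ST_ENGD := by
  intro A _ u v hu hv k
  induction k with
  | zero => exact hu
  | succ k ih => exact hCOM A (k + 1) 1 _ _ ih hv

theorem st_POWD : ST_POWD := by
  intro A _ u hu k
  induction k with
  | zero => intro n hn; omega
  | succ k ih =>
    intro n hn
    rw [pow_succ, PowerSeries.coeff_mul]
    refine Finset.sum_eq_zero ?_
    rintro ⟨i, j⟩ hij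
    have hij := Finset.HasAntidiagonal.mem_antidiagonal.1 hij
    simp only at hij
    rcases Nat.eq_zero_or_pos j with h | h
    · subst h
      rw [hu 0 (by omega), mul_zero]
    · rw [ih i (by omega), zero_mul]

theorem st_IDM : ST_IDM := by
  intro rel rel' n h
  apply Submodule.span_mono
  rintro x ⟨i, k, j, hn, a, ha, f, hf, b, hb, rfl⟩
  exact ⟨i, k, j, hn, a, ha, f, h k (by omega) hf, b, hb, rfl⟩

end Pool.Agent.Helper93.GS
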