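import Pool.Agent.Helper93.GS.Stmts

set_option autoImplicit false

namespace Pool.Agent.Helper93.GS

open Pool.Agent.Helper64.ORStar

theorem tfr_pow {A : Type} [Ring A] (p : PowerSeries A) (m : ℕ) (hm : 0 < m)
    (hp : ∀ n < m, PowerSeries.coeff n p = 0) (k : ℕ) :
    (∀ n < m, PowerSeries.coeff n ((1 + p) ^ k - 1) = 0) ∧
      PowerSeries.coeff m ((1 + p) ^ k - 1) = k • PowerSeries.coeff m p := by
  induction k with
  | zero => simp
  | succ k ih =>
    have e : (1 + p) ^ (k + 1) - 1 = ((1 + p) ^ k - 1) + p + ((1 + p) ^ k - 1) * p := by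
      rw [pow_succ, mul_add, mul_one, sub_mul, one_mul]; abel
    have h0 : ∀ n ≤ m, PowerSeries.coeff n (((1 + p) ^ k - 1) * p) = 0 := by
      intro n hn
      rw [PowerSeries.coeff_mul]
      refine Finset.sum_eq_zero ?_
      rintro ⟨i, j⟩ hij
      have hij := Finset.HasAntidiagonal.mem_antidiagonal.1 hij
      simp only at hij ⊢
      by_cases h : i < m
      · rw [ih.1 i h, zero_mul]
      · rw [hp j (by omega), mul_zero]
    constructor
    · intro n hn
      rw [e, map_add, map_add, ih.1 n hn, hp n hn, h0 n hn.le, add_zero, add_zero]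
    · rw [e, map_add, map_add, ih.2, h0 m le_rfl, add_zero, succ_nsmul]

theorem st_TFR : ST_TFR := by
  classical
  intro A _ _ u hu N k hk hmem
  by_contra hcon
  have h1 : ∃ n, n < N ∧ PowerSeries.coeff n ((u : PowerSeries A) - 1) ≠ 0 := by
    by_contra h
    push Not at h
    exact hcon h
  have hm := Nat.find_spec h1
  have hmin : ∀ n < Nat.find h1, PowerSeries.coeff n ((u : PowerSeries A) - 1) = 0 := by
    intro n hn
    by_contra h
    exact Nat.find_min h1 hn ⟨by omega, h⟩
  set m := Nat.find h1 with hmdef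
  have hmpos : 0 < m := by
    rcases Nat.eq_zero_or_pos m with h | h
    · exfalso
      apply hm.2
      rw [h]
      exact hu 0 one_pos
    · exact h
  have h2 := (tfr_pow ((u : PowerSeries A) - 1) m hmpos hmin k).2
  rw [add_sub_cancel, ← Units.val_pow_eq_pow_val, hmem m hm.1] at h2
  apply hm.2
  have h3 : (k : ℚ) • PowerSeries.coeff m ((u : PowerSeries A) - 1) = 0 := by
    rw [Nat.cast_smul_eq_nsmul]
    exact h2.symm
  have hkq : (k : ℚ) ≠ 0 := by exact_mod_cast hk.ne'
  have h4 := congrArg (fun z => (k : ℚ)⁻¹ • z) h3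
  simpa [smul_smul, inv_mul_cancel₀ hkq] using h4

end Pool.Agent.Helper93.GS
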