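import Pool.Agent.Helper93.GS.Stmts

set_option autoImplicit false

namespace Pool.Agent.Helper93.GS

open Pool.Agent.Helper64.ORStar

theorem st_ZORN : ST_ZORN := by
  intro A _ P w hP
  have hz : ∃ M : Submonoid A, P ≤ M ∧
      Maximal (fun M : Submonoid A => M ∈ {M : Submonoid A | ∀ k : ℕ, 0 < k → w ^ k ∉ M}) M := by
    refine zorn_le_nonempty₀ _ ?_ P hP
    intro c hc hchain y hy
    refine ⟨sSup c, ?_, fun z hz => le_sSup hz⟩
    intro k hk hmem
    rw [Submonoid.mem_sSup_of_directedOn ⟨y, hy⟩ hchain.directedOn] at hmem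
    obtain ⟨M, hM, hwM⟩ := hmem
    exact hc hM k hk hwM
  obtain ⟨M, hPM, hM, hmax⟩ := hz
  have hM' : ∀ k : ℕ, 0 < k → w ^ k ∉ M := hM
  have key : ∀ x : A, x ∉ M → ∃ k a : ℕ, 0 < k ∧ 0 < a ∧ ∃ m ∈ M, w ^ k = m * x ^ a := by
    intro x hx
    have h1 : ¬ (∀ k : ℕ, 0 < k → w ^ k ∉ M ⊔ Submonoid.closure {x}) := by
      intro h
      have h2 := hmax (y := M ⊔ Submonoid.closure {x}) h le_sup_left
      apply hx
      exact h2 (Submonoid.mem_sup_right (Submonoid.subset_closure rfl))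
    push Not at h1
    obtain ⟨k, hk, h⟩ := h1
    rw [Submonoid.mem_sup] at h
    obtain ⟨m, hm, z, hz, h⟩ := h
    rw [Submonoid.mem_closure_singleton] at hz
    obtain ⟨a, rfl⟩ := hz
    refine ⟨k, a, hk, ?_, m, hm, h.symm⟩
    rcases Nat.eq_zero_or_pos a with h0 | h0
    · exfalso
      subst h0
      rw [pow_zero, mul_one] at h
      exact hM' k hk (h ▸ hm)
    · exact h0
  refine ⟨M, hPM, ?_, ?_⟩
  · have := hM' 1 one_pos
    rwa [pow_one] at this
  · intro x
    by_contra hcon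
    push Not at hcon
    obtain ⟨k, a, hk, ha, m, hm, h1⟩ := key x hcon.1
    obtain ⟨l, b, hl, hb, m', hm', h2⟩ := key x⁻¹ hcon.2
    apply hM' (k * b + l * a) (by positivity)
    have e : w ^ (k * b + l * a) = m ^ b * m' ^ a := by
      rw [pow_add, pow_mul, pow_mul, h1, h2, mul_pow, mul_pow, ← pow_mul, ← pow_mul, inv_pow,
        mul_comm b a]
      rw [mul_mul_mul_comm, mul_inv_cancel, mul_one]
    rw [e]
    exact M.mul_mem (M.pow_mem hm b) (M.pow_mem hm' a)

end Pool.Agent.Helper93.GS
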